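import Pool.Agent.LibRF53.Fin

set_option autoImplicit false

namespace Pool.Agent.Results.MP_d34678_an.RadialCharacterisation

open MeasureTheory

open scoped FourierTransform in
/-- Radial Fourier multipliers, no condition on the support, Stein-Tomas range, every dimension at
least 3: a bound on the dilates of one radial Schwartz function gives the bound on L^p. -/
theorem result (d : ℕ) (hd : 3 ≤ d) (p : ℝ) (hp1 : 1 < p)
    (hp2 : p < 2 * ((d : ℝ) + 1) / ((d : ℝ) + 3))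
    (f₀ : SchwartzMap (EuclideanSpace ℝ (Fin d)) ℂ)
    (hf₀ : ∀ x y : EuclideanSpace ℝ (Fin d), ‖x‖ = ‖y‖ → f₀ x = f₀ y) (h0 : f₀ ≠ 0) :
    ∃ C : ℝ, 0 < C ∧ ∀ m : EuclideanSpace ℝ (Fin d) → ℂ, Measurable m →
      (∃ M : ℝ, ∀ ξ, ‖m ξ‖ ≤ M) →
      (∀ ξ ξ' : EuclideanSpace ℝ (Fin d), ‖ξ‖ = ‖ξ'‖ → m ξ = m ξ') → ∀ B : ENNReal,
      (∀ t : ℝ, 0 < t →
        eLpNorm (𝓕⁻ (fun ξ => m ξ * 𝓕 (fun x : EuclideanSpace ℝ (Fin d) => f₀ (t • x)) ξ))
            (ENNReal.ofReal p) volume ≤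
          B * eLpNorm (fun x : EuclideanSpace ℝ (Fin d) => f₀ (t • x)) (ENNReal.ofReal p)
            volume) →
      ∀ f : SchwartzMap (EuclideanSpace ℝ (Fin d)) ℂ,
        eLpNorm (𝓕⁻ (fun ξ => m ξ * 𝓕 (f : EuclideanSpace ℝ (Fin d) → ℂ) ξ))
            (ENNReal.ofReal p) volume ≤
          ENNReal.ofReal C * B * eLpNorm f (ENNReal.ofReal p) volume :=
  Pool.LibRF53.radial_full d hd p hp1 hp2 f₀ hf₀ h0

end Pool.Agent.Results.MP_d34678_an.RadialCharacterisation
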