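import Pool.Agent.LibSR53.F4

set_option autoImplicit false

namespace Pool.Agent.Results.MP_d34678_an.SparseRadii

open MeasureTheory Set

/-- The inequality for spherical averages over a sparse set of radii, dimension at least 4. -/
theorem result (d : ℕ) (hd : 4 ≤ d) (α : ℝ) (hα0 : 0 ≤ α) (hα1 : α ≤ 1) (p : ℝ) (hp1 : 1 < p)
    (hp2 : p < 2 * ((d : ℝ) - 3 + 2 * α) / ((d : ℝ) - 3 + 4 * α)) (K : ℝ)
    (η : SchwartzMap (EuclideanSpace ℝ (Fin d)) ℂ)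
    (hη : ∃ ε : ℝ, 0 < ε ∧ ∀ ξ : EuclideanSpace ℝ (Fin d), ‖ξ‖ < ε →
      ∫ x : EuclideanSpace ℝ (Fin d),
        Complex.exp (-(2 * (Real.pi : ℂ) * Complex.I * ((inner ℝ x ξ : ℝ) : ℂ))) * η x = 0) :
    ∃ C : ℝ, ∀ R : Set ℝ,
      (∀ a D : ℝ, 1 ≤ D → D ≤ a →
        (({n : ℕ | a ≤ n ∧ (n : ℝ) ≤ a + D ∧ (R ∩ Ico (n : ℝ) (n + 1)).Nonempty}).ncard : ℝ) ≤
          K * D ^ α) →
      ∀ g : EuclideanSpace ℝ (Fin d) × ℝ → ℂ, Measurable g → (∃ B : ℝ, ∀ z, ‖g z‖ ≤ B) →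
      HasCompactSupport g → (∀ z r, r ∉ R → g (z, r) = 0) →
      MeasureTheory.eLpNorm
        (fun x : EuclideanSpace ℝ (Fin d) =>
          ∫ r in Set.Ioi (1 : ℝ), ∫ z : EuclideanSpace ℝ (Fin d),
            (∫ y in Metric.sphere (0 : EuclideanSpace ℝ (Fin d)) r, η (x - y - z)
              ∂(MeasureTheory.Measure.hausdorffMeasure ((d : ℝ) - 1))) * g (z, r))
        (ENNReal.ofReal p) MeasureTheory.volume
      ≤ ENNReal.ofReal C *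
        (∫⁻ r in Set.Ioi (1 : ℝ), ∫⁻ x : EuclideanSpace ℝ (Fin d),
            ‖g (x, r)‖ₑ ^ p * ENNReal.ofReal (r ^ (d - 1))) ^ (1 / p) :=
  Pool.LibSR53.main d hd α hα0 hα1 p hp1 hp2 K η hη

end Pool.Agent.Results.MP_d34678_an.SparseRadii
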