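import Pool.Agent.LibCA93.Fin

set_option autoImplicit false

namespace Pool.Agent.Results.MP_d34678_an.SteinTomasRange

open MeasureTheory Set

/-- Sums of spherical averages of arbitrary functions, in the whole open Stein-Tomas range, in every
dimension at least 3. -/
theorem result (d : ℕ) (hd : 3 ≤ d) (p : ℝ) (hp1 : 1 < p)
    (hp2 : p < 2 * ((d : ℝ) + 1) / ((d : ℝ) + 3))
    (η : SchwartzMap (EuclideanSpace ℝ (Fin d)) ℂ)
    (hη : ∃ ε : ℝ, 0 < ε ∧ ∀ ξ : EuclideanSpace ℝ (Fin d), ‖ξ‖ < ε →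
      ∫ x : EuclideanSpace ℝ (Fin d),
        Complex.exp (-(2 * (Real.pi : ℂ) * Complex.I * ((inner ℝ x ξ : ℝ) : ℂ))) * η x = 0) :
    ∃ C : ℝ, 0 < C ∧ ∀ g : EuclideanSpace ℝ (Fin d) × ℝ → ℂ, Measurable g →
      (∃ B : ℝ, ∀ z, ‖g z‖ ≤ B) → HasCompactSupport g →
      MeasureTheory.eLpNorm
        (fun x : EuclideanSpace ℝ (Fin d) =>
          ∫ r in Set.Ioi (1 : ℝ), ∫ z : EuclideanSpace ℝ (Fin d),
            (∫ y in Metric.sphere (0 : EuclideanSpace ℝ (Fin d)) r, η (x - y - z)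
              ∂(MeasureTheory.Measure.hausdorffMeasure ((d : ℝ) - 1))) * g (z, r))
        (ENNReal.ofReal p) MeasureTheory.volume
      ≤ ENNReal.ofReal C *
        (∫⁻ r in Set.Ioi (1 : ℝ), ∫⁻ x : EuclideanSpace ℝ (Fin d),
            ‖g (x, r)‖ₑ ^ p * ENNReal.ofReal (r ^ (d - 1))) ^ (1 / p) := by
  obtain ⟨C, hC⟩ := Pool.LibCA93.main d hd p hp1 hp2 η hη
  refine ⟨max C 1, lt_max_of_lt_right one_pos, fun g hm hb hc => (hC g hm hb hc).trans ?_⟩
  gcongr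
  exact le_max_left C 1

end Pool.Agent.Results.MP_d34678_an.SteinTomasRange
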